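import Mathlib
import Pool.Agent.Helpers29.Morera5

namespace Pool.Agent.Results.MP_be4214_an.SmallCircles

open Metric Filter Topology

/-- Q2 and Q1, both affirmative: a continuous function `f` on a domain `D` with
`r⁻² ∮_{|ζ - z| = r} f(ζ) dζ → 0` as `r → 0`, for every `z ∈ D`, is holomorphic in `D`; in
particular so is one with `∮_{|ζ - z| = r} f(ζ) dζ = 0` for all small `r`, for every `z ∈ D`. -/
theorem result :
    (∀ D : Set ℂ, IsOpen D → IsConnected D → ∀ f : ℂ → ℂ, ContinuousOn f D →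
      (∀ z ∈ D, Tendsto (fun r : ℝ => ((r : ℂ) ^ 2)⁻¹ * ∮ ζ in C(z, r), f ζ) (𝓝[>] 0) (𝓝 0)) →
      DifferentiableOn ℂ f D) ∧
    (∀ D : Set ℂ, IsOpen D → IsConnected D → ∀ f : ℂ → ℂ, ContinuousOn f D →
      (∀ z ∈ D, ∃ ρ > 0, ∀ r, 0 < r → r ≤ ρ → closedBall z r ⊆ D →
        (∮ ζ in C(z, r), f ζ) = 0) →
      DifferentiableOn ℂ f D) :=
  ⟨fun _ hD _ _ hf h => Pool.Agent.Helpers29.Morera.main2 hD hf h,
    fun _ hD _ _ hf h => Pool.Agent.Helpers29.Morera.main1 hD hf h⟩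

end Pool.Agent.Results.MP_be4214_an.SmallCircles
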